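import Mathlib

/-!
# The real part of the amplitude function of a tree can be negative (MP_84cbe7_co)

For a finite simple graph `G` and a configuration `x : V → ℝ³` separating adjacent vertices, the
`G`-amplitude is a ratio of spinor permanents.  We disprove the statement
`Re A_T(x) ≥ 1` for all trees `T`: the spider with `15` legs of length `3`, all legs placed on the
same three points, has `A_T(x) = 15! ((9 - i)/4)^15`, whose real part is negative.
-/

namespace Pool.Agent.Results.MP_84cbe7_co.TreeAmplitude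

open Finset

/-- Euclidean 3-space. -/
abbrev E3 : Type := EuclideanSpace ℝ (Fin 3)

/-- The Pauli matrix `σ₁`. -/
def pauli1 : Matrix (Fin 2) (Fin 2) ℂ := !![0, 1; 1, 0]

/-- The Pauli matrix `σ₂`. -/
def pauli2 : Matrix (Fin 2) (Fin 2) ℂ := !![0, -Complex.I; Complex.I, 0]

/-- The Pauli matrix `σ₃`. -/
def pauli3 : Matrix (Fin 2) (Fin 2) ℂ := !![1, 0; 0, -1]

/-- `v · σ = v₁ σ₁ + v₂ σ₂ + v₃ σ₃`. -/
noncomputable def dotSigma (v : E3) : Matrix (Fin 2) (Fin 2) ℂ :=
  ((v 0 : ℝ) : ℂ) • pauli1 + ((v 1 : ℝ) : ℂ) • pauli2 + ((v 2 : ℝ) : ℂ) • pauli3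

/-- `ψ ∈ ℂ²` is a unit vector with `(v · σ) ψ = ψ`. -/
def IsUnitSpinor (v : E3) (ψ : Fin 2 → ℂ) : Prop :=
  ‖ψ 0‖ ^ 2 + ‖ψ 1‖ ^ 2 = 1 ∧ (dotSigma v).mulVec ψ = ψ

/-- `ω(a, b) = a₁ b₂ - a₂ b₁`. -/
def omega (a b : Fin 2 → ℂ) : ℂ := a 0 * b 1 - a 1 * b 0

/-- The unit vector from `x i` to `x j`. -/
noncomputable def unitDir {V : Type} (x : V → E3) (i j : V) : E3 :=
  (1 / ‖x j - x i‖) • (x j - x i)

/-- An admissible configuration: adjacent vertices are sent to different points. -/
def Admissible {V : Type} (G : SimpleGraph V) (x : V → E3) : Prop :=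
  ∀ i j, G.Adj i j → x i ≠ x j

/-- A choice of unit spinors `ψ_{ij}`, one for each ordered pair `(i,j)` of adjacent vertices
(the set `S_G` is the type `G.Dart`). -/
def IsSpinorChoice {V : Type} (G : SimpleGraph V) (x : V → E3) (ψ : G.Dart → Fin 2 → ℂ) : Prop :=
  ∀ d : G.Dart, IsUnitSpinor (unitDir x d.fst d.snd) (ψ d)

/-- `Δ ⊆ S_G` contains exactly one of `(i,j)`, `(j,i)` for each edge. -/
def IsHalf {V : Type} (G : SimpleGraph V) (Δ : Finset G.Dart) : Prop :=
  ∀ d : G.Dart, (d ∈ Δ ∧ d.symm ∉ Δ) ∨ (d ∉ Δ ∧ d.symm ∈ Δ)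

/-- The group `P_G` of permutations of `S_G` preserving the first index. -/
def firstPreserving {V : Type} [Fintype V] [DecidableEq V] (G : SimpleGraph V)
    [DecidableRel G.Adj] : Finset (Equiv.Perm G.Dart) :=
  univ.filter fun σ => ∀ d : G.Dart, (σ d).fst = d.fst

/-- The `G`-amplitude, computed with the spinors `ψ` and the half `Δ` of `S_G`. -/
noncomputable def amplitude {V : Type} [Fintype V] [DecidableEq V] (G : SimpleGraph V)
    [DecidableRel G.Adj] (ψ : G.Dart → Fin 2 → ℂ) (Δ : Finset G.Dart) : ℂ :=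
  (∑ σ ∈ firstPreserving G, ∏ d ∈ Δ, omega (ψ (σ d)) (ψ (σ d.symm))) /
    ∏ d ∈ Δ, omega (ψ d) (ψ d.symm)

/-! ### The spider -/

/-- the three vertices on a leg -/
inductive Pos | near | mid | tip
  deriving DecidableEq

instance : Fintype Pos := ⟨{Pos.near, Pos.mid, Pos.tip}, by intro x; cases x <;> decide⟩

/-- the six darts on a leg: `d*` point away from the root, `u*` towards the root -/
inductive Leg | d0 | u0 | d1 | u1 | d2 | u2
  deriving DecidableEq

instance : Fintype Leg :=
  ⟨{Leg.d0, Leg.u0, Leg.d1, Leg.u1, Leg.d2, Leg.u2}, by intro x; cases x <;> decide⟩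

open Pos Leg

/-- vertices of the spider with `m` legs -/
abbrev W (m : ℕ) : Type := Option (Fin m × Pos)

/-- abstract darts of the spider -/
abbrev D (m : ℕ) : Type := Fin m × Leg

/-- the source of a dart -/
def src {m : ℕ} : D m → W m
  | (_, d0) => none
  | (k, u0) => some (k, near)
  | (k, d1) => some (k, near)
  | (k, u1) => some (k, mid)
  | (k, d2) => some (k, mid)
  | (k, u2) => some (k, tip)

/-- reversal of legs darts -/
def flip : Leg → Leg
  | d0 => u0
  | u0 => d0
  | d1 => u1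
  | u1 => d1
  | d2 => u2
  | u2 => d2

/-- reversal of darts -/
def rev {m : ℕ} (d : D m) : D m := (d.1, flip d.2)

theorem rev_rev {m : ℕ} (d : D m) : rev (rev d) = d := by
  obtain ⟨k, l⟩ := d
  cases l <;> rfl

/-- the spider with `m` legs of length three -/
def spider (m : ℕ) : SimpleGraph (W m) where
  Adj u v := ∃ d : D m, src d = u ∧ src (rev d) = v
  symm := by
    constructor
    rintro u v ⟨d, h1, h2⟩
    exact ⟨rev d, h2, by rw [rev_rev]; exact h1⟩
  loopless := by
    constructor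
    rintro u ⟨⟨k, l⟩, h1, h2⟩
    rw [← h2] at h1
    cases l <;> simp [src, rev, flip] at h1

theorem src_pair_injective {m : ℕ} {d e : D m} (h1 : src d = src e)
    (h2 : src (rev d) = src (rev e)) : d = e := by
  obtain ⟨k, l⟩ := d
  obtain ⟨k', l'⟩ := e
  cases l <;> cases l' <;> simp_all [src, rev, flip]

instance (m : ℕ) : DecidableRel (spider m).Adj := by
  intro u v
  unfold spider
  infer_instance

/-- the map from abstract darts to darts -/
def toDart {m : ℕ} (d : D m) : (spider m).Dart := ⟨(src d, src (rev d)), ⟨d, rfl, rfl⟩⟩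

theorem toDart_bijective {m : ℕ} : Function.Bijective (toDart (m := m)) := by
  constructor
  · intro d e h
    have h' := congrArg SimpleGraph.Dart.toProd h
    simp only [toDart, Prod.mk.injEq] at h'
    exact src_pair_injective h'.1 h'.2
  · rintro ⟨⟨u, v⟩, ⟨d, h1, h2⟩⟩
    exact ⟨d, SimpleGraph.Dart.ext _ _ (Prod.ext h1 h2)⟩

/-- abstract darts are the darts -/
noncomputable def eqv (m : ℕ) : D m ≃ (spider m).Dart := Equiv.ofBijective _ toDart_bijective

theorem eqv_apply {m : ℕ} (d : D m) : eqv m d = toDart d := rfl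

theorem eqv_fst {m : ℕ} (d : D m) : (eqv m d).fst = src d := rfl

theorem eqv_snd {m : ℕ} (d : D m) : (eqv m d).snd = src (rev d) := rfl

theorem eqv_symm {m : ℕ} (d : D m) : (eqv m d).symm = eqv m (rev d) := by
  have h : src (rev (rev d)) = src d := by rw [rev_rev]
  refine SimpleGraph.Dart.ext _ _ (Prod.ext rfl ?_)
  exact h.symm

theorem reach {m : ℕ} (v : W m) : (spider m).Reachable none v := by
  have h : ∀ d : D m, (spider m).Reachable (src d) (src (rev d)) := fun d =>
    SimpleGraph.Adj.reachable (⟨d, rfl, rfl⟩ : (spider m).Adj (src d) (src (rev d)))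
  have h0 : ∀ k : Fin m, (spider m).Reachable none (some (k, near)) := fun k => h (k, d0)
  have h1 : ∀ k : Fin m, (spider m).Reachable (some (k, near)) (some (k, mid)) :=
    fun k => h (k, d1)
  have h2 : ∀ k : Fin m, (spider m).Reachable (some (k, mid)) (some (k, tip)) :=
    fun k => h (k, d2)
  rcases v with _ | ⟨k, p⟩
  · exact SimpleGraph.Reachable.refl _
  · cases p
    · exact h0 k
    · exact (h0 k).trans (h1 k)
    · exact ((h0 k).trans (h1 k)).trans (h2 k)

theorem card_leg : Fintype.card Leg = 6 := rfl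

theorem card_pos : Fintype.card Pos = 3 := rfl

theorem spider_isTree (m : ℕ) : (spider m).IsTree := by
  rw [SimpleGraph.isTree_iff_connected_and_card]
  refine ⟨SimpleGraph.connected_iff_exists_forall_reachable _ |>.2 ⟨none, reach⟩, ?_⟩
  have h1 : Fintype.card (spider m).Dart = 6 * m := by
    rw [← Fintype.card_congr (eqv m)]
    simp [card_leg, mul_comm]
  have h2 := (spider m).dart_card_eq_twice_card_edges
  have h3 : Nat.card (spider m).edgeSet = #(spider m).edgeFinset := by
    rw [Nat.card_eq_fintype_card, SimpleGraph.edgeFinset_card]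
  rw [h3, Nat.card_eq_fintype_card]
  have h4 : Fintype.card (W m) = m * 3 + 1 := by
    simp [card_pos]
  rw [h4]
  omega

/-! ### Reduction of the amplitude of the spider to a combinatorial sum -/

/-- permutations of the abstract darts preserving the source -/
def pres (m : ℕ) : Finset (Equiv.Perm (D m)) := univ.filter fun τ => ∀ d, src (τ d) = src d

/-- product over a half of the darts of an antisymmetric function -/
theorem prod_half {m : ℕ} (Δ : Finset (spider m).Dart) (hΔ : IsHalf _ Δ)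
    (f : (spider m).Dart → ℂ) (hf : ∀ d, f d.symm = - f d) :
    ∏ d ∈ Δ, f d =
      (∏ k : Fin m, ((if eqv m (k, u0) ∈ Δ then (1 : ℂ) else -1) *
        (if eqv m (k, u1) ∈ Δ then (1 : ℂ) else -1) *
        (if eqv m (k, u2) ∈ Δ then (1 : ℂ) else -1))) *
      ∏ k : Fin m, (f (eqv m (k, u0)) * f (eqv m (k, u1)) * f (eqv m (k, u2))) := by
  have h1 : ∏ d ∈ Δ, f d = ∏ d : (spider m).Dart, if d ∈ Δ then f d else 1 := by
    rw [Finset.prod_ite_mem, Finset.univ_inter]
  rw [h1, ← Equiv.prod_comp (eqv m), Fintype.prod_prod_type, ← Finset.prod_mul_distrib]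
  refine Finset.prod_congr rfl fun k _ => ?_
  have h2 : ∀ g : Leg → ℂ, ∏ l : Leg, g l = g d0 * g u0 * (g d1 * g u1) * (g d2 * g u2) := by
    intro g
    have : (univ : Finset Leg) = {d0, u0, d1, u1, d2, u2} := rfl
    rw [this]
    rw [Finset.prod_insert (by decide), Finset.prod_insert (by decide),
      Finset.prod_insert (by decide), Finset.prod_insert (by decide),
      Finset.prod_insert (by decide), Finset.prod_singleton]
    ring
  rw [h2]
  have key : ∀ l l' : Leg, flip l' = l → 
      (if eqv m (k, l) ∈ Δ then f (eqv m (k, l)) else 1) *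
        (if eqv m (k, l') ∈ Δ then f (eqv m (k, l')) else 1) =
      (if eqv m (k, l') ∈ Δ then (1 : ℂ) else -1) * f (eqv m (k, l')) := by
    intro l l' hl
    have e1 : (eqv m (k, l')).symm = eqv m (k, l) := by
      rw [eqv_symm, rev, hl]
    rcases hΔ (eqv m (k, l')) with ⟨ha, hb⟩ | ⟨ha, hb⟩
    · rw [e1] at hb
      rw [if_neg hb, if_pos ha, if_pos ha]
    · rw [e1] at hb
      rw [if_pos hb, if_neg ha, if_neg ha, ← e1, hf]
      ring
  rw [key d0 u0 rfl, key d1 u1 rfl, key d2 u2 rfl]
  ring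

theorem sum_pres {m : ℕ} (F : Equiv.Perm (spider m).Dart → ℂ) :
    ∑ σ ∈ firstPreserving (spider m), F σ =
      ∑ τ ∈ pres m, F ((eqv m).permCongr τ) := by
  symm
  refine Finset.sum_bij (fun τ _ => (eqv m).permCongr τ) ?_ ?_ ?_ ?_
  · intro τ hτ
    rw [pres, mem_filter] at hτ
    rw [firstPreserving, mem_filter]
    refine ⟨mem_univ _, fun d => ?_⟩
    obtain ⟨e, rfl⟩ := (eqv m).surjective d
    simp only [Equiv.permCongr_apply, Equiv.symm_apply_apply]
    rw [eqv_fst, eqv_fst]
    exact hτ.2 e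
  · intro τ _ τ' _ h
    exact (eqv m).permCongr.injective h
  · intro σ hσ
    rw [firstPreserving, mem_filter] at hσ
    refine ⟨(eqv m).permCongr.symm σ, ?_, ?_⟩
    · rw [pres, mem_filter]
      refine ⟨mem_univ _, fun d => ?_⟩
      have := hσ.2 (eqv m d)
      rw [eqv_fst] at this
      rw [← this, ← eqv_fst]
      simp
    · exact (eqv m).permCongr.apply_symm_apply σ
  · intro τ _
    rfl

/-! ### Parametrisation of the source preserving permutations -/

/-- the map on darts attached to a map `p` of the legs and bits `b` -/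
def phi {m : ℕ} (p : Fin m → Fin m) (b : Fin m → Bool × Bool) : D m → D m
  | (k, d0) => (p k, d0)
  | (k, u0) => if (b k).1 then (k, d1) else (k, u0)
  | (k, d1) => if (b k).1 then (k, u0) else (k, d1)
  | (k, u1) => if (b k).2 then (k, d2) else (k, u1)
  | (k, d2) => if (b k).2 then (k, u1) else (k, d2)
  | (k, u2) => (k, u2)

theorem phi_phi {m : ℕ} (p q : Fin m → Fin m) (hpq : ∀ k, p (q k) = k) (b : Fin m → Bool × Bool)
    (d : D m) : phi p b (phi q b d) = d := by
  obtain ⟨k, l⟩ := d
  cases l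
  · simp [phi, hpq]
  · by_cases h : (b k).1 = true <;> simp [phi, h]
  · by_cases h : (b k).1 = true <;> simp [phi, h]
  · by_cases h : (b k).2 = true <;> simp [phi, h]
  · by_cases h : (b k).2 = true <;> simp [phi, h]
  · simp [phi]

/-- the permutation of darts attached to a permutation of the legs and bits -/
def Phi {m : ℕ} (π : Equiv.Perm (Fin m)) (b : Fin m → Bool × Bool) : Equiv.Perm (D m) where
  toFun := phi π b
  invFun := phi π.symm b
  left_inv := phi_phi _ _ (fun k => π.symm_apply_apply k) b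
  right_inv := phi_phi _ _ (fun k => π.apply_symm_apply k) b

theorem Phi_mem {m : ℕ} (π : Equiv.Perm (Fin m)) (b : Fin m → Bool × Bool) :
    Phi π b ∈ pres m := by
  rw [pres, mem_filter]
  refine ⟨mem_univ _, ?_⟩
  rintro ⟨k, l⟩
  change src (phi π b (k, l)) = _
  cases l
  · rfl
  · by_cases h : (b k).1 = true <;> simp [phi, h, src]
  · by_cases h : (b k).1 = true <;> simp [phi, h, src]
  · by_cases h : (b k).2 = true <;> simp [phi, h, src]
  · by_cases h : (b k).2 = true <;> simp [phi, h, src]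
  · rfl

theorem Phi_injective {m : ℕ} {π π' : Equiv.Perm (Fin m)} {b b' : Fin m → Bool × Bool}
    (h : Phi π b = Phi π' b') : π = π' ∧ b = b' := by
  have h' : ∀ d, phi π b d = phi π' b' d := fun d => congrArg (fun τ : Equiv.Perm (D m) => τ d) h
  constructor
  · ext k
    have := h' (k, d0)
    simp only [phi, Prod.mk.injEq] at this
    exact congrArg Fin.val this.1
  · funext k
    have e1 := h' (k, u0)
    have e2 := h' (k, u1)
    simp only [phi] at e1 e2
    have f1 : (b k).1 = (b' k).1 := by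
      cases hb : (b k).1 <;> cases hb' : (b' k).1 <;> simp_all
    have f2 : (b k).2 = (b' k).2 := by
      cases hb : (b k).2 <;> cases hb' : (b' k).2 <;> simp_all
    exact Prod.ext f1 f2

theorem src_eq_none {m : ℕ} {d : D m} (h : src d = none) : d.2 = d0 := by
  obtain ⟨k, l⟩ := d
  cases l <;> simp_all [src]

theorem src_eq_near {m : ℕ} {d : D m} {k : Fin m} (h : src d = some (k, near)) :
    d = (k, u0) ∨ d = (k, d1) := by
  obtain ⟨k, l⟩ := d
  cases l <;> simp_all [src]

theorem src_eq_mid {m : ℕ} {d : D m} {k : Fin m} (h : src d = some (k, mid)) :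
    d = (k, u1) ∨ d = (k, d2) := by
  obtain ⟨k, l⟩ := d
  cases l <;> simp_all [src]

theorem src_eq_tip {m : ℕ} {d : D m} {k : Fin m} (h : src d = some (k, tip)) :
    d = (k, u2) := by
  obtain ⟨k, l⟩ := d
  cases l <;> simp_all [src]

theorem Phi_surjective {m : ℕ} {τ : Equiv.Perm (D m)} (hτ : τ ∈ pres m) :
    ∃ (π : Equiv.Perm (Fin m)) (b : Fin m → Bool × Bool), Phi π b = τ := by
  rw [pres, mem_filter] at hτ
  have hs := hτ.2
  have h0 : ∀ k, τ (k, d0) = ((τ (k, d0)).1, d0) := by
    intro k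
    have := src_eq_none (d := τ (k, d0)) (by rw [hs]; rfl)
    exact Prod.ext rfl this
  have hinj : Function.Injective fun k => (τ (k, d0)).1 := by
    intro k k' h
    simp only at h
    have : τ (k, d0) = τ (k', d0) := by rw [h0 k, h0 k', h]
    have := τ.injective this
    exact congrArg Prod.fst this
  let π : Equiv.Perm (Fin m) := Equiv.ofBijective _ (Finite.injective_iff_bijective.1 hinj)
  refine ⟨π, fun k => (decide (τ (k, u0) = (k, d1)), decide (τ (k, u1) = (k, d2))), ?_⟩
  ext1 d
  obtain ⟨k, l⟩ := d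
  change phi π _ (k, l) = _
  have a1 := src_eq_near (d := τ (k, u0)) (k := k) (by rw [hs]; rfl)
  have a2 := src_eq_near (d := τ (k, d1)) (k := k) (by rw [hs]; rfl)
  have a3 := src_eq_mid (d := τ (k, u1)) (k := k) (by rw [hs]; rfl)
  have a4 := src_eq_mid (d := τ (k, d2)) (k := k) (by rw [hs]; rfl)
  have a5 := src_eq_tip (d := τ (k, u2)) (k := k) (by rw [hs]; rfl)
  have n1 : τ (k, u0) ≠ τ (k, d1) := fun h => by simpa using τ.injective h
  have n2 : τ (k, u1) ≠ τ (k, d2) := fun h => by simpa using τ.injective h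
  cases l
  · simp only [phi]
    rw [h0 k]
    rfl
  · rcases a1 with h | h <;> simp [phi, h]
  · rcases a1 with h | h
    · rcases a2 with h' | h'
      · exact absurd (h.trans h'.symm) n1
      · simp [phi, h, h']
    · rcases a2 with h' | h'
      · simp [phi, h, h']
      · exact absurd (h.trans h'.symm) n1
  · rcases a3 with h | h <;> simp [phi, h]
  · rcases a3 with h | h
    · rcases a4 with h' | h'
      · exact absurd (h.trans h'.symm) n2
      · simp [phi, h, h']
    · rcases a4 with h' | h'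
      · simp [phi, h, h']
      · exact absurd (h.trans h'.symm) n2
  · simp only [phi]
    exact a5.symm

theorem sum_Phi {m : ℕ} (F : Equiv.Perm (D m) → ℂ) :
    ∑ τ ∈ pres m, F τ = ∑ q : Equiv.Perm (Fin m) × (Fin m → Bool × Bool), F (Phi q.1 q.2) := by
  symm
  refine Finset.sum_bij (fun q _ => Phi q.1 q.2) ?_ ?_ ?_ ?_
  · intro q _
    exact Phi_mem _ _
  · intro q _ q' _ h
    obtain ⟨h1, h2⟩ := Phi_injective h
    exact Prod.ext h1 h2
  · intro τ hτ
    obtain ⟨π, b, h⟩ := Phi_surjective hτ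
    exact ⟨(π, b), mem_univ _, h⟩
  · intro q _
    rfl

/-! ### The explicit spinors -/

/-- explicit (not normalised) spinors of the darts on a leg -/
noncomputable def sp : Leg → Fin 2 → ℂ
  | d0 => ![1, 1]
  | u0 => ![1, -1]
  | d1 => ![1, 0]
  | u1 => ![0, 1]
  | d2 => ![1, Complex.I]
  | u2 => ![1, -Complex.I]

/-- the contribution of one leg -/
noncomputable def legTerm (a : Leg → Fin 2 → ℂ) (b : Bool × Bool) : ℂ :=
  omega (if b.1 then a d1 else a u0) (a d0) *
    omega (if b.2 then a d2 else a u1) (if b.1 then a u0 else a d1) *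
    omega (a u2) (if b.2 then a u1 else a d2)

theorem legTerm_sum : ∑ b : Bool × Bool, legTerm sp b = -(1 + 9 * Complex.I) := by
  have hI : Complex.I * Complex.I = -1 := Complex.I_mul_I
  rw [Fintype.sum_prod_type, Fintype.sum_bool, Fintype.sum_bool, Fintype.sum_bool]
  simp only [legTerm, omega, sp, if_true, Bool.false_eq_true, if_false]
  simp only [Matrix.cons_val_zero, Matrix.cons_val_one]
  ring_nf

theorem legTerm_id : legTerm sp (false, false) = -4 * Complex.I := by
  simp only [legTerm, omega, sp, Bool.false_eq_true, if_false]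
  simp only [Matrix.cons_val_zero, Matrix.cons_val_one]
  ring_nf

/-- the product over the darts towards the root -/
noncomputable def Q {m : ℕ} (a : D m → Fin 2 → ℂ) (τ : Equiv.Perm (D m)) : ℂ :=
  ∏ k : Fin m, (omega (a (τ (k, u0))) (a (τ (k, d0))) * omega (a (τ (k, u1))) (a (τ (k, d1))) *
    omega (a (τ (k, u2))) (a (τ (k, d2))))

theorem omega_smul (c c' : ℂ) (a b : Fin 2 → ℂ) : omega (c • a) (c' • b) = c * c' * omega a b := by
  simp only [omega, Pi.smul_apply, smul_eq_mul]
  ring

theorem prod_leg (g : Leg → ℂ) :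
    ∏ l : Leg, g l = g d0 * g u0 * (g d1 * g u1) * (g d2 * g u2) := by
  have : (univ : Finset Leg) = {d0, u0, d1, u1, d2, u2} := rfl
  rw [this]
  rw [Finset.prod_insert (by decide), Finset.prod_insert (by decide),
    Finset.prod_insert (by decide), Finset.prod_insert (by decide),
    Finset.prod_insert (by decide), Finset.prod_singleton]
  ring

theorem Q_smul {m : ℕ} (c : D m → ℂ) (a : D m → Fin 2 → ℂ) (τ : Equiv.Perm (D m)) :
    Q (fun d => c d • a d) τ = (∏ d, c d) * Q a τ := by
  have h1 : ∏ d, c d = ∏ k : Fin m, ((c (τ (k, u0)) * c (τ (k, d0))) *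
      (c (τ (k, u1)) * c (τ (k, d1))) * (c (τ (k, u2)) * c (τ (k, d2)))) := by
    rw [← Equiv.prod_comp τ, Fintype.prod_prod_type]
    refine Finset.prod_congr rfl fun k _ => ?_
    rw [prod_leg]
    ring
  rw [h1, Q, Q, ← Finset.prod_mul_distrib]
  refine Finset.prod_congr rfl fun k _ => ?_
  simp only [omega_smul]
  ring

theorem Q_Phi {m : ℕ} (π : Equiv.Perm (Fin m)) (b : Fin m → Bool × Bool) :
    Q (fun d : D m => sp d.2) (Phi π b) = ∏ k, legTerm sp (b k) := by
  refine Finset.prod_congr rfl fun k _ => ?_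
  have e : ∀ l, Phi π b (k, l) = phi π b (k, l) := fun l => rfl
  simp only [e, phi, legTerm]
  cases h1 : (b k).1 <;> cases h2 : (b k).2 <;> simp

theorem Q_one {m : ℕ} :
    Q (fun d : D m => sp d.2) 1 = (-4 * Complex.I) ^ m := by
  have : (1 : Equiv.Perm (D m)) = Phi 1 (fun _ => (false, false)) := by
    ext1 d
    obtain ⟨k, l⟩ := d
    cases l <;> rfl
  rw [this, Q_Phi]
  simp only [legTerm_id]
  simp

theorem sum_Q {m : ℕ} :
    ∑ τ ∈ pres m, Q (fun d : D m => sp d.2) τ =
      (m.factorial : ℂ) * (-(1 + 9 * Complex.I)) ^ m := by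
  rw [sum_Phi, Fintype.sum_prod_type]
  simp only [Q_Phi]
  rw [Finset.sum_const, Finset.card_univ, Fintype.card_perm, Fintype.card_fin, nsmul_eq_mul]
  congr 1
  have h := Finset.prod_univ_sum (fun _ : Fin m => (univ : Finset (Bool × Bool)))
    (fun _ b => legTerm sp b)
  rw [Fintype.piFinset_univ] at h
  rw [← h]
  simp only [legTerm_sum]
  simp

theorem amplitude_spider {m : ℕ} (ψ : (spider m).Dart → Fin 2 → ℂ) (c : D m → ℂ)
    (hc : ∀ d, c d ≠ 0) (hψ : ∀ d : D m, ψ (eqv m d) = c d • sp d.2)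
    (Δ : Finset (spider m).Dart) (hΔ : IsHalf _ Δ) :
    amplitude (spider m) ψ Δ = (m.factorial : ℂ) * ((9 - Complex.I) / 4) ^ m := by
  have hfun : (fun d : D m => ψ (eqv m d)) = fun d => c d • sp d.2 := funext hψ
  set ε : ℂ := ∏ k : Fin m, ((if eqv m (k, u0) ∈ Δ then (1 : ℂ) else -1) *
        (if eqv m (k, u1) ∈ Δ then (1 : ℂ) else -1) *
        (if eqv m (k, u2) ∈ Δ then (1 : ℂ) else -1)) with hε
  have hε0 : ε ≠ 0 := by
    rw [hε, Finset.prod_ne_zero_iff]
    intro k _
    refine mul_ne_zero (mul_ne_zero ?_ ?_) ?_ <;> split_ifs <;> simp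
  have hterm : ∀ τ : Equiv.Perm (D m),
      ∏ d ∈ Δ, omega (ψ ((eqv m).permCongr τ d)) (ψ ((eqv m).permCongr τ d.symm)) =
        ε * ((∏ d, c d) * Q (fun d : D m => sp d.2) τ) := by
    intro τ
    rw [prod_half Δ hΔ (fun d => omega (ψ ((eqv m).permCongr τ d))
      (ψ ((eqv m).permCongr τ d.symm)))]
    · rw [← hε]
      congr 1
      rw [← Q_smul, ← hfun, Q]
      refine Finset.prod_congr rfl fun k _ => ?_
      have e : ∀ l, (eqv m).permCongr τ (eqv m (k, l)) = eqv m (τ (k, l)) := by
        intro l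
        simp [Equiv.permCongr_apply]
      simp only [eqv_symm, rev, flip, e]
    · intro d
      simp only [SimpleGraph.Dart.symm_symm, omega]
      ring
  have hden : ∏ d ∈ Δ, omega (ψ d) (ψ d.symm) =
      ε * ((∏ d, c d) * Q (fun d : D m => sp d.2) 1) := by
    rw [← hterm 1]
    refine Finset.prod_congr rfl fun d _ => ?_
    simp [Equiv.permCongr_apply]
  rw [amplitude, sum_pres, hden]
  simp only [hterm]
  rw [← Finset.mul_sum, ← Finset.mul_sum, sum_Q, Q_one]
  have hP : ∏ d, c d ≠ 0 := Finset.prod_ne_zero_iff.2 fun d _ => hc d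
  have hI : (-4 * Complex.I) ≠ 0 := by simp
  rw [mul_div_mul_left _ _ hε0, mul_div_mul_left _ _ hP, mul_div_assoc, ← div_pow]
  congr 2
  rw [div_eq_div_iff hI (by norm_num)]
  linear_combination (-4 : ℂ) * Complex.I_mul_I

/-! ### The configuration -/

/-- the positions of the vertices on a leg -/
noncomputable def pt : Pos → E3
  | near => !₂[1, 0, 0]
  | mid => !₂[1, 0, 1]
  | tip => !₂[1, 1, 1]

/-- the configuration: every leg sits on the same three points -/
noncomputable def conf {m : ℕ} : W m → E3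
  | none => 0
  | some (_, p) => pt p

/-- the directions of the darts -/
noncomputable def legDir : Leg → E3
  | d0 => !₂[1, 0, 0]
  | u0 => !₂[-1, 0, 0]
  | d1 => !₂[0, 0, 1]
  | u1 => !₂[0, 0, -1]
  | d2 => !₂[0, 1, 0]
  | u2 => !₂[0, -1, 0]

theorem norm_legDir (l : Leg) : ‖legDir l‖ = 1 := by
  cases l <;> simp [legDir, EuclideanSpace.norm_eq, Fin.sum_univ_three]

theorem conf_sub {m : ℕ} (d : D m) : conf (src (rev d)) - conf (src d) = legDir d.2 := by
  obtain ⟨k, l⟩ := d
  cases l <;> ext i <;> fin_cases i <;> simp [conf, src, rev, flip, pt, legDir]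

theorem unitDir_conf {m : ℕ} (d : D m) : unitDir conf (src d) (src (rev d)) = legDir d.2 := by
  rw [unitDir, conf_sub, norm_legDir]
  simp

theorem conf_admissible {m : ℕ} : Admissible (spider m) conf := by
  rintro i j ⟨d, rfl, rfl⟩ h
  have h1 := conf_sub d
  rw [h, sub_self] at h1
  have h2 := norm_legDir d.2
  rw [← h1, norm_zero] at h2
  exact zero_ne_one h2

theorem spinor_form (l : Leg) (ψ : Fin 2 → ℂ) (h : IsUnitSpinor (legDir l) ψ) :
    ∃ c : ℂ, c ≠ 0 ∧ ψ = c • sp l := by
  obtain ⟨h1, h2⟩ := h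
  suffices hs : ∃ c : ℂ, ψ = c • sp l by
    obtain ⟨c, hc⟩ := hs
    refine ⟨c, ?_, hc⟩
    rintro rfl
    rw [hc] at h1
    simp at h1
  have e0 := congrFun h2 0
  have e1 := congrFun h2 1
  simp only [dotSigma, pauli1, pauli2, pauli3, Matrix.mulVec, dotProduct, Fin.sum_univ_two,
    Matrix.add_apply, Matrix.smul_apply, smul_eq_mul] at e0 e1
  cases l
  · simp [legDir] at e0 e1
    refine ⟨ψ 0, ?_⟩
    ext i
    fin_cases i <;> simp [sp, e1]
  · simp [legDir] at e0 e1
    refine ⟨ψ 0, ?_⟩
    ext i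
    fin_cases i <;> simp [sp, e1]
  · simp [legDir] at e0 e1
    refine ⟨ψ 0, ?_⟩
    ext i
    fin_cases i
    · simp [sp]
    · have : ψ 1 = 0 := by linear_combination (-1 / 2 : ℂ) * e1
      simp [sp, this]
  · simp [legDir] at e0 e1
    refine ⟨ψ 1, ?_⟩
    ext i
    fin_cases i
    · have : ψ 0 = 0 := by linear_combination (-1 / 2 : ℂ) * e0
      simp [sp, this]
    · simp [sp]
  · simp [legDir] at e0 e1
    refine ⟨ψ 0, ?_⟩
    ext i
    fin_cases i
    · simp [sp]
    · simp [sp, ← e1, mul_comm]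
  · simp [legDir] at e0 e1
    refine ⟨ψ 0, ?_⟩
    ext i
    fin_cases i
    · simp [sp]
    · simp [sp, ← e1, mul_comm]

/-- unit spinors exist for all the directions of the darts -/
theorem spinor_exists (l : Leg) : ∃ ψ : Fin 2 → ℂ, IsUnitSpinor (legDir l) ψ := by
  have hI : Complex.I * Complex.I = -1 := Complex.I_mul_I
  have hr : (‖((1 / Real.sqrt 2 : ℝ) : ℂ)‖) ^ 2 = 1 / 2 := by
    rw [Complex.norm_real, Real.norm_eq_abs, sq_abs, div_pow, Real.sq_sqrt (by norm_num)]
    norm_num
  have key : ∀ (l : Leg) (c : ℂ), (dotSigma (legDir l)).mulVec (c • sp l) = c • sp l := by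
    intro l c
    ext i
    simp only [dotSigma, pauli1, pauli2, pauli3, Matrix.mulVec, dotProduct, Fin.sum_univ_two,
      Matrix.add_apply, Matrix.smul_apply, smul_eq_mul]
    cases l <;> fin_cases i <;> simp [legDir, sp] <;> ring_nf <;> simp
  cases l
  · refine ⟨((1 / Real.sqrt 2 : ℝ) : ℂ) • sp d0, ?_, key _ _⟩
    simp only [sp, Pi.smul_apply, smul_eq_mul, norm_mul, mul_pow, hr]
    norm_num
  · refine ⟨((1 / Real.sqrt 2 : ℝ) : ℂ) • sp u0, ?_, key _ _⟩
    simp only [sp, Pi.smul_apply, smul_eq_mul, norm_mul, mul_pow, hr]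
    norm_num
  · refine ⟨(1 : ℂ) • sp d1, ?_, key _ _⟩
    simp [sp]
  · refine ⟨(1 : ℂ) • sp u1, ?_, key _ _⟩
    simp [sp]
  · refine ⟨((1 / Real.sqrt 2 : ℝ) : ℂ) • sp d2, ?_, key _ _⟩
    simp only [sp, Pi.smul_apply, smul_eq_mul, norm_mul, mul_pow, hr]
    norm_num
  · refine ⟨((1 / Real.sqrt 2 : ℝ) : ℂ) • sp u2, ?_, key _ _⟩
    simp only [sp, Pi.smul_apply, smul_eq_mul, norm_mul, mul_pow, hr]
    norm_num

theorem spinorChoice_exists (m : ℕ) :
    ∃ ψ : (spider m).Dart → Fin 2 → ℂ, IsSpinorChoice (spider m) conf ψ := by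
  have h : ∀ d : (spider m).Dart, ∃ ψ : Fin 2 → ℂ, IsUnitSpinor (unitDir conf d.fst d.snd) ψ := by
    intro d
    obtain ⟨e, rfl⟩ := (eqv m).surjective d
    obtain ⟨ψ, hψ⟩ := spinor_exists e.2
    refine ⟨ψ, ?_⟩
    rw [eqv_fst, eqv_snd, unitDir_conf]
    exact hψ
  exact ⟨fun d => (h d).choose, fun d => (h d).choose_spec⟩

/-- the darts towards the root form a half -/
theorem half_exists (m : ℕ) : ∃ Δ : Finset (spider m).Dart, IsHalf (spider m) Δ := by
  let isUp : Leg → Bool := fun l =>
    match l with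
    | u0 => true
    | u1 => true
    | u2 => true
    | _ => false
  refine ⟨univ.filter fun d => isUp ((eqv m).symm d).2 = true, fun d => ?_⟩
  obtain ⟨e, rfl⟩ := (eqv m).surjective d
  rw [eqv_symm]
  obtain ⟨k, l⟩ := e
  cases l <;> simp [rev, flip, isUp]

theorem pow_fifteen : ((((15 : ℕ).factorial : ℂ) * ((9 - Complex.I) / 4) ^ 15)).re < 0 := by
  have h2 : (9 - Complex.I) ^ 2 = 80 - 18 * Complex.I := by
    linear_combination Complex.I_mul_I
  have h4 : (9 - Complex.I) ^ 4 = 6076 - 2880 * Complex.I := by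
    have : (9 - Complex.I) ^ 4 = ((9 - Complex.I) ^ 2) ^ 2 := by ring
    rw [this, h2]
    linear_combination (324 : ℂ) * Complex.I_mul_I
  have h8 : (9 - Complex.I) ^ 8 = 28623376 - 34997760 * Complex.I := by
    have : (9 - Complex.I) ^ 8 = ((9 - Complex.I) ^ 4) ^ 2 := by ring
    rw [this, h4]
    linear_combination (8294400 : ℂ) * Complex.I_mul_I
  have h15 : (9 - Complex.I) ^ 15 = -20078071648128 - 224842906547072 * Complex.I := by
    have : (9 - Complex.I) ^ 15 = (9 - Complex.I) ^ 8 * (9 - Complex.I) ^ 4 *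
        ((9 - Complex.I) ^ 2 * (9 - Complex.I)) := by ring
    rw [this, h8, h4, h2]
    have e1 : (28623376 - 34997760 * Complex.I) * (6076 - 2880 * Complex.I) =
        73122083776 - 295081712640 * Complex.I := by
      linear_combination (100793548800 : ℂ) * Complex.I_mul_I
    have e2 : (80 - 18 * Complex.I) * (9 - Complex.I) = 702 - 242 * Complex.I := by
      linear_combination (18 : ℂ) * Complex.I_mul_I
    rw [e1, e2]
    linear_combination (71409774458880 : ℂ) * Complex.I_mul_I
  have h : (((15 : ℕ).factorial : ℂ) * ((9 - Complex.I) / 4) ^ 15) =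
      (((15 : ℕ).factorial / 4 ^ 15 : ℝ) : ℂ) *
        (((-20078071648128 : ℝ) : ℂ) + ((-224842906547072 : ℝ) : ℂ) * Complex.I) := by
    rw [div_pow, h15]
    push_cast
    ring
  rw [h, Complex.re_ofReal_mul, Complex.add_re, Complex.ofReal_re, Complex.re_ofReal_mul,
    Complex.I_re]
  norm_num [Nat.factorial]

/-- **Disproof of Q1 of MP_84cbe7_co.**  There are a finite tree `T` and an admissible
configuration `x` of `T` in `ℝ³` with `Re A_T(x) < 0`; in particular `Re A_T(x) ≥ 1` fails.
Spinor choices `ψ` and halves `Δ` exist, and the inequality holds for all of them. -/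
theorem result :
    ∃ (V : Type) (_ : Fintype V) (_ : DecidableEq V) (T : SimpleGraph V)
      (_ : DecidableRel T.Adj) (x : V → E3),
      T.IsTree ∧ Admissible T x ∧
      (∃ ψ : T.Dart → Fin 2 → ℂ, IsSpinorChoice T x ψ) ∧
      (∃ Δ : Finset T.Dart, IsHalf T Δ) ∧
      ∀ (ψ : T.Dart → Fin 2 → ℂ) (Δ : Finset T.Dart), IsSpinorChoice T x ψ → IsHalf T Δ →
        (amplitude T ψ Δ).re < 0 := by
  refine ⟨W 15, inferInstance, inferInstance, spider 15, inferInstance, conf, spider_isTree 15,
    conf_admissible, spinorChoice_exists 15, half_exists 15, ?_⟩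
  intro ψ Δ hψ hΔ
  have h : ∀ d : D 15, ∃ c : ℂ, c ≠ 0 ∧ ψ (eqv 15 d) = c • sp d.2 := by
    intro d
    refine spinor_form _ _ ?_
    have := hψ (eqv 15 d)
    rw [eqv_fst, eqv_snd, unitDir_conf] at this
    exact this
  choose c hc hcψ using h
  rw [amplitude_spider ψ c hc hcψ Δ hΔ]
  exact pow_fifteen

end Pool.Agent.Results.MP_84cbe7_co.TreeAmplitude
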